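import Pool.Agent.MP38b55a.Main

set_option autoImplicit false

open scoped commutatorElement

namespace Pool.Agent.MP38b55a

theorem ring_three {R : Type*} [Ring R] {H : Type*} [Group H] (ρ : H →* R) (h3 : (3 : R) = 0)
    (h2 : ∀ y, (ρ y - 1) * (ρ y - 1) = 0) (x y z : H) :
    (ρ x - 1) * (ρ y - 1) * (ρ z - 1) = 0 := by
  have anti : ∀ y z, (ρ y - 1) * (ρ z - 1) + (ρ z - 1) * (ρ y - 1) = 0 := by
    have e : ∀ y z, (ρ y - 1) * (ρ z - 1) + (ρ z - 1) * (ρ y - 1) +
        (ρ y - 1) * (ρ z - 1) * (ρ y - 1) + (ρ z - 1) * (ρ y - 1) * (ρ z - 1) +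
        (ρ y - 1) * (ρ z - 1) * (ρ y - 1) * (ρ z - 1) = 0 := by
      intro y z
      have h := h2 (y * z)
      have hu := h2 y
      have hv := h2 z
      rw [map_mul] at h
      generalize ρ y = a at *
      generalize ρ z = b at *
      obtain ⟨u, rfl⟩ : ∃ u, a = u + 1 := ⟨a - 1, by abel⟩
      obtain ⟨v, rfl⟩ : ∃ v, b = v + 1 := ⟨b - 1, by abel⟩
      simp only [add_sub_cancel_right] at *
      have : u * v + v * u + u * v * u + v * u * v + u * v * u * v =
          ((u + 1) * (v + 1) - 1) * ((u + 1) * (v + 1) - 1) - u * u - v * v - (u * u) * v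
            - u * (v * v) := by noncomm_ring
      rw [this, h, hu, hv]; simp
    have e2 : ∀ y z, (ρ y - 1) * (ρ z - 1) * (ρ y - 1) = 0 := by
      intro y z
      have h := congrArg (fun t => (ρ y - 1) * t) (e y z)
      have hu := h2 y
      have h1 : (ρ y - 1) * (ρ z - 1) * (ρ y - 1) * ρ z = 0 := by
        generalize ρ y - 1 = u at *
        obtain ⟨v, hv⟩ : ∃ v, ρ z = v + 1 := ⟨ρ z - 1, by abel⟩
        rw [hv] at h ⊢
        simp only [add_sub_cancel_right, mul_zero] at h ⊢
        have : u * v * u * (v + 1) = u * (u * v + v * u + u * v * u + v * u * v + u * v * u * v)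
          - (u * u) * v - (u * u) * v * u - (u * u) * v * u * v := by noncomm_ring
        rw [this, h, hu]; simp
      have h4 := congrArg (fun t => t * ρ z⁻¹) h1
      simp only [mul_assoc, ← map_mul, mul_inv_cancel, map_one, mul_one, zero_mul] at h4
      rw [mul_assoc]; exact h4
    intro y z
    have h := e y z
    rw [e2 y z, e2 z y] at h
    simpa using h
  have hinv : ∀ y, ρ y⁻¹ = 1 - (ρ y - 1) := by
    intro y
    have h1 : ρ y⁻¹ * ρ y = 1 := by rw [← map_mul, inv_mul_cancel, map_one]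
    have h4 : ρ y * (1 - (ρ y - 1)) = 1 := by
      have := h2 y
      have e : ρ y * (1 - (ρ y - 1)) = 1 - (ρ y - 1) * (ρ y - 1) := by noncomm_ring
      rw [e, this, sub_zero]
    calc ρ y⁻¹ = ρ y⁻¹ * (ρ y * (1 - (ρ y - 1))) := by rw [h4, mul_one]
      _ = 1 - (ρ y - 1) := by rw [← mul_assoc, h1, one_mul]
  have h := anti (x * y * x⁻¹ * y⁻¹) z
  simp only [map_mul, hinv] at h
  have huv := anti x y
  have huw := anti x z
  have hvw := anti y z
  have hu := h2 x
  have hv := h2 y
  obtain ⟨u, hu'⟩ : ∃ u, ρ x = u + 1 := ⟨ρ x - 1, by abel⟩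
  obtain ⟨v, hv'⟩ : ∃ v, ρ y = v + 1 := ⟨ρ y - 1, by abel⟩
  simp only [hu', hv', add_sub_cancel_right] at h huv huw hvw hu hv ⊢
  generalize ρ z - 1 = w at *
  have evu : v * u = -(u * v) := eq_neg_of_add_eq_zero_right huv
  have ewu : w * u = -(u * w) := eq_neg_of_add_eq_zero_right huw
  have ewv : w * v = -(v * w) := eq_neg_of_add_eq_zero_right hvw
  have e1 : (u + 1) * (v + 1) * (1 - u) * (1 - v) - 1 = u * v + u * v := by
    have : (u + 1) * (v + 1) * (1 - u) * (1 - v) - 1 = u * v - v * u - u * u - v * v + (u * u) * v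
      - u * (v * u) + (v * u) * v + u * (v * u) * v - u * (v * v) := by noncomm_ring
    rw [this, evu]
    have : u * v - -(u * v) - u * u - v * v + u * u * v - u * -(u * v) + -(u * v) * v +
      u * -(u * v) * v - u * (v * v) = u * v + u * v - u * u - v * v + (u * u) * v + (u * u) * v
        - u * (v * v) - (u * u) * (v * v) - u * (v * v) := by noncomm_ring
    rw [this, hu, hv]; simp
  rw [e1] at h
  have e2 : w * (u * v) = u * v * w := by
    rw [← mul_assoc, ewu, neg_mul, mul_assoc, ewv]; noncomm_ring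
  have e3 : u * v * w = (u * v + u * v) * w + w * (u * v + u * v) - 3 * (u * v * w) := by
    rw [mul_add w, e2]; noncomm_ring
  rw [e3, h, h3]; simp

theorem conj_comm_three {H : Type*} [Group H] (h : ∀ x : H, x ^ 3 = 1) (x y : H) :
    x * (y * x * y⁻¹) = (y * x * y⁻¹) * x := by
  have e : ∀ x y : H, x * (y * x * y⁻¹) = (y⁻¹ * x * y)⁻¹ := by
    intro x y
    have h1 := h (x * y)
    have h2 := h y
    have : x * (y * x * y⁻¹) = (x * y) ^ 3 * (y ^ 3)⁻¹ * (y * y * y * y⁻¹ * x⁻¹ * y⁻¹ * y⁻¹) := by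
      simp only [pow_succ, pow_zero]; group
    rw [this, h1, h2]
    have h3 : y * y = y⁻¹ := by
      rw [eq_inv_iff_mul_eq_one]; simpa only [pow_succ, pow_zero, one_mul] using h2
    have h4 : y⁻¹ * y⁻¹ = y := by rw [← mul_inv_rev, h3, inv_inv]
    calc 1 * 1⁻¹ * (y * y * y * y⁻¹ * x⁻¹ * y⁻¹ * y⁻¹) = (y * y) * x⁻¹ * (y⁻¹ * y⁻¹) := by group
      _ = (y⁻¹ * x * y)⁻¹ := by rw [h3, h4]; group
  have h1 := e x y
  have h2 := e x y⁻¹
  rw [inv_inv] at h2
  have h3 : (y⁻¹ * x * y) * x * (y * x * y⁻¹) = 1 := by rw [mul_assoc _ x, h1]; group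
  have h4 : (y * x * y⁻¹) * x * (y⁻¹ * x * y) = 1 := by rw [mul_assoc _ x, h2]; group
  calc x * (y * x * y⁻¹) = (y⁻¹ * x * y)⁻¹ := h1
    _ = (y * x * y⁻¹) * x * (y⁻¹ * x * y) * (y⁻¹ * x * y)⁻¹ := by rw [h4, one_mul]
    _ = (y * x * y⁻¹) * x := by group

theorem class_three {H : Type*} [Group H] (h : ∀ x : H, x ^ 3 = 1) :
    (⊤ : Subgroup H).lowerCentralSeries 3 = ⊥ := by
  rw [Subgroup.lowerCentralSeries_eq_bot_iff_upperCentralSeries_eq_top, eq_top_iff]
  intro m _
  let M : Subgroup H := Subgroup.normalClosure {m}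
  have hcomm : ∀ a ∈ M, ∀ b ∈ M, a * b = b * a := by
    have gen : ∀ a ∈ Group.conjugatesOfSet ({m} : Set H), ∀ b ∈ Group.conjugatesOfSet ({m} : Set H),
        a * b = b * a := by
      intro a ha b hb
      rw [Group.mem_conjugatesOfSet_iff] at ha hb
      obtain ⟨_, rfl, ha⟩ := ha
      obtain ⟨_, rfl, hb⟩ := hb
      obtain ⟨c, rfl⟩ := isConj_iff.1 (ha.symm.trans hb)
      exact conj_comm_three h a c
    intro a ha b hb
    have h1 : M ≤ Subgroup.centralizer (Group.conjugatesOfSet ({m} : Set H)) :=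
      (Subgroup.closure_le _).2 fun x hx y hy => gen y hy x hx
    have h2 : M ≤ Subgroup.centralizer (M : Set H) :=
      (Subgroup.closure_le _).2 fun x hx y hy => (h1 hy x hx).symm
    exact h2 hb a ha
  let _ : CommGroup M := { (inferInstance : Group M) with
    mul_comm := fun a b => Subtype.ext (hcomm a a.2 b b.2) }
  let σ : H → Module.End ℤ (Additive M) := fun y =>
    (MonoidHom.toAdditive (MulAut.conjNormal y : MulAut M).toMonoidHom).toIntLinearMap
  have hσ : ∀ (y : H) (v : Additive M), ((Additive.toMul (σ y v) : M) : H) =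
      y * ((Additive.toMul v : M) : H) * y⁻¹ := fun y v => rfl
  have hext : ∀ s t : Module.End ℤ (Additive M),
      (∀ v, ((Additive.toMul (s v) : M) : H) = ((Additive.toMul (t v) : M) : H)) → s = t :=
    fun s t hst => LinearMap.ext fun v => Additive.toMul.injective (Subtype.ext (hst v))
  let ρ : H →* Module.End ℤ (Additive M) :=
    { toFun := σ
      map_one' := hext _ _ fun v => by rw [hσ]; simp
      map_mul' := fun y z => hext _ _ fun v => by
        rw [Module.End.mul_apply, hσ, hσ, hσ]; group }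
  have hρ : ∀ (y : H) (v : Additive M), ((Additive.toMul ((1 - ρ y) v) : M) : H) =
      ⁅((Additive.toMul v : M) : H), y⁆ := by
    intro y v
    have : (1 - ρ y) v = v - σ y v := rfl
    rw [this, toMul_sub, div_eq_mul_inv, commutatorElement_def, Subgroup.coe_mul, Subgroup.coe_inv,
      hσ]
    group
  have key : ∀ x y z, (1 - ρ x) * (1 - ρ y) * (1 - ρ z) = 0 := by
    intro x y z
    have := ring_three ρ ?_ ?_ x y z
    · rw [← neg_sub (ρ x), ← neg_sub (ρ y), ← neg_sub (ρ z), neg_mul_neg, mul_neg, this, neg_zero]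
    · refine hext _ _ fun v => ?_
      have : (3 : Module.End ℤ (Additive M)) v = 3 • v := Module.End.ofNat_apply 3 v
      rw [this, toMul_nsmul, Subgroup.coe_pow, h]
      rfl
    · intro y
      rw [← neg_sub 1 (ρ y), neg_mul_neg]
      refine hext _ _ fun v => ?_
      rw [Module.End.mul_apply, hρ, hρ]
      have e := conj_comm_three h y ((Additive.toMul v : M) : H)
      generalize ((Additive.toMul v : M) : H) = w at e
      show _ = (1 : H)
      rw [commutatorElement_eq_one_iff_mul_comm, commutatorElement_def]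
      calc w * y * w⁻¹ * y⁻¹ * y = ((w * y * w⁻¹) * y) * y⁻¹ := by group
        _ = y * (w * y * w⁻¹ * y⁻¹) := by rw [← e]; group
  simp only [Subgroup.mem_upperCentralSeries_succ_iff, Subgroup.upperCentralSeries_zero,
    Subgroup.mem_bot]
  intro z y x
  have := congrArg (fun t : Module.End ℤ (Additive M) => ((Additive.toMul (t (Additive.ofMul
    (⟨m, Subgroup.subset_normalClosure rfl⟩ : M))) : M) : H)) (key x y z)
  simp only [Module.End.mul_apply, hρ] at this
  exact this

end Pool.Agent.MP38b55a
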